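import Pool.Agent.W394.LS.Final

/-!
Negative answer to Q2: for degree `d = 7` no constant `c(d)` exists.
-/

namespace Pool.Agent.Results.MP_6bdaeb_co.NoUniformBound

open Pool.Agent.W394.LS

/-- For some `d` (namely `d = 7`) and every `c` there are a finite connected `d`-regular
vertex-transitive graph `H` and an `r ≥ 1` such that every finite connected vertex-transitive
graph with the same `r`-ball as `H` has diameter greater than `c r`. -/
theorem result : ∃ d : ℕ, ∀ c : ℕ, ∃ (W : Type) (_ : Finite W) (H : SimpleGraph W) (r : ℕ),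
    1 ≤ r ∧ H.Connected ∧ (∀ v, (H.neighborSet v).ncard = d) ∧ VertexTransitive H ∧
    ∀ (W' : Type) (_ : Finite W') (H' : SimpleGraph W'), H'.Connected → VertexTransitive H' →
      SameBall H' H r → (c : ℕ∞) * (r : ℕ∞) < H'.ediam := by
  refine ⟨7, fun c => ?_⟩
  obtain ⟨r, hr, h⟩ := linear_lt_ediam c
  have : NeZero (8 * (r + 1) + 16) := ⟨by omega⟩
  have hfin : Finite (QN (8 * (r + 1) + 16)) := inferInstance
  have hS := HN_G0_sameBall r (8 * (r + 1) + 16) le_rfl
  refine ⟨QN (8 * (r + 1) + 16), hfin, HN (8 * (r + 1) + 16), r, hr, HN_conn _, ?_, HN_vt _, ?_⟩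
  · intro v
    exact degree_eq hr hS v
  · intro W' hW' H' hc hv hS'
    refine h W' hW' H' hc hv ?_
    intro x y
    exact (hS' x 1).trans (hS 1 y)

end Pool.Agent.Results.MP_6bdaeb_co.NoUniformBound
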